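import Pool.Agent.Y231.RF.Fin

set_option autoImplicit false

/-! # The equivariant motivic monodromy conjecture for forms over ideals with Rees divisors

Let `g t j ∈ ℂ[x_i]`, `t ∈ T`, be generators of ideals `I_t`, let `F_t = ∑_j y_{t,j} g t j`, where the
`y_{t,j}` are further variables, separate for each `t` (`blockForm`), and let `f = ∏ t, F_t ^ a t`
(`powProd`). Let `Y` be a log resolution of the product of the `I_t` with `a t > 0`, with the
components `E_i`, `i ∈ I`, let `k i` be the multiplicity of `E_i` in the relative canonical divisor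
and `m i t` the order of `I_t` along `E_i`. Locally on `Y` the form `F_t` is one of the `g t j` times
`y_{t,j} + ∑_{i ≠ j} h_i y_{t,i}`; hence `Y` times the space of the `y` is an embedded resolution of
`f`, with the components `E_i`, of multiplicity `∑ t, a t * m i t` (and `ν_i = k i + 1`), and, for
`a t > 0`, the strict transform of `F_t = 0`, of multiplicity `a t` (and `ν = 1`): `nuR`, `mulR`.

By the formula of Denef and Loeser the equivariant motivic zeta function of `f` over
`X_s = {f = 0}` is `∑_I c_I ∏_{i ∈ I} 𝕃 ^ (-ν_i) T ^ (N_i) / (1 - 𝕃 ^ (-ν_i) T ^ (N_i))` (`dlZ`), the sum over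
the non-empty sets `I` of components, where `c_I ∈ 𝓜^μ_{X_s}` is `(𝕃 - 1) ^ (|I| - 1)` times the class of
the covering of the stratum of `I` with its action of `μ`. For the local statement at the origin the `E_i` are those which meet the fibre over the origin; as
`E_i` is irreducible and closed, there is then, for every polynomial `H` with `H(0) ≠ 0`, a general
point of `E_i` over a point at which `H` does not vanish (a chart with `H(ξ)(0) ≠ 0`).

The proof: a functional equation of `f` gives a functional equation of the product of the powers of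
the ideals, with the same `b` (`locEq_of_powProd`); Rees divisors of this product give roots
(`rees_prod`); the roots `-1 / a t` come from the strict transforms (`strict_root`). -/

namespace Pool.Agent.Results.MP_b48657_ag.ReesForms

open Pool.Agent.H628R4.TP Pool.Agent.TH192.DT Pool.Agent.TH187.SA Pool.Agent.Y231.RF

/-- **The equivariant motivic monodromy conjecture for products of powers of forms over ideals
with a log resolution all of whose components are Rees divisors.** For arbitrary classes `χ` (the
`c_I` above) in any commutative ring `R` with a unit `u` (`𝓜^μ_{X_s}` and `𝕃`) the series `dlZ` lies in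
the ring generated over `R` by `T` and the `1 / (1 - u ^ c T ^ d)`, `(c, d)` in the set of the pairs
`(-ν, N)`, `c < 0 < d`. If all `E_i` of positive multiplicity are Rees divisors, then all the `c / d` are
roots of every `b` with `b(s) f ^ s = P(s) f ^ (s + 1)`, in particular of the Bernstein-Sato polynomial
of `f`; if this is so over general points near the origin, then they are roots of every `b` of this
kind with analytic `P` at the origin (`IsLocalBFunction`). -/
theorem result :
    ∀ {σ T I : Type} [Fintype σ] [DecidableEq σ] [Fintype T] [DecidableEq T] [Fintype I]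
      {κ : T → Type} [∀ t, Fintype (κ t)] [∀ t, DecidableEq (κ t)]
      (g : (t : T) → κ t → MvPolynomial σ ℂ) (_ : ∀ t, ∃ j, g t j ≠ 0) (a : T → ℕ)
      (k : I → ℕ) (m : I → T → ℕ),
      (∀ (R : Type) [CommRing R] (u : Rˣ) (χ : Finset {x // 0 < mulR a m x} → R),
        dlZ u (nuR k T) (mulR a m) χ ∈
          ratU u (pairs (nuR k T) (mulR a m) : Set (ℤ × ℤ))) ∧
      ∀ q ∈ pairs (nuR k T) (mulR a m), q.1 < 0 ∧ 0 < q.2 ∧
        ((∀ i, 0 < ∑ t, a t * m i t →
          ∃ E : Chart g, E.k = k i ∧ E.m = m i ∧ E.IsRees fun t => a t ≠ 0) →
          ∀ b : Polynomial ℂ, IsBFunction (powProd a g) b → b.eval ((q.1 : ℂ) / q.2) = 0) ∧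
        ((∀ i, 0 < ∑ t, a t * m i t →
          ∀ H : MvPolynomial σ ℂ, MvPolynomial.constantCoeff H ≠ 0 →
            ∃ E : Chart g, E.k = k i ∧ E.m = m i ∧ (E.IsRees fun t => a t ≠ 0) ∧
              MvPowerSeries.constantCoeff (MvPolynomial.aeval E.ξ H) ≠ 0) →
          ∀ b : Polynomial ℂ, IsLocalBFunction (powProd a g) b →
            b.eval ((q.1 : ℂ) / q.2) = 0) := by
  intro σ T I _ _ _ _ _ κ _ _ g hg a k m
  exact ⟨fun _ _ u χ => dlZ_mem u _ _ χ, fun q hq =>
    ⟨(pairs_sign _ _ (nuR_pos k) q hq).1, (pairs_sign _ _ (nuR_pos k) q hq).2,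
      fun hE b hb => roots_global a g hg k m hE q hq b hb,
      fun hE b hb => roots_local a g hg k m hE q hq b hb⟩⟩

end Pool.Agent.Results.MP_b48657_ag.ReesForms
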